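import Pool.Agent.N206.HJ.Stm

set_option autoImplicit false

namespace Pool.Agent.N897.HJ

open MvPowerSeries Pool.Agent.N206.HJ

variable {p : ℕ}

theorem hs_add (b : Fin 3) (s : ℕ) (f g : A p) : hs b s (f + g) = hs b s f + hs b s g := by
  ext α
  simp only [hs_coeff, map_add, mul_add]

theorem hs_zero' (b : Fin 3) (s : ℕ) : hs b s (0 : A p) = 0 := by
  ext α
  simp only [hs_coeff, map_zero, mul_zero]

/-- the remainder -/
noncomputable def TT (h : Au p) (a b : Fin 3) (n S : ℕ) (f : A p) : A p :=
  h f - ∑ s ∈ Finset.range S, X a ^ (n * s) * hs b s f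

theorem TT_add (h : Au p) (a b : Fin 3) (n S : ℕ) (f g : A p) :
    TT h a b n S (f + g) = TT h a b n S f + TT h a b n S g := by
  unfold TT
  simp only [map_add, hs_add, mul_add, Finset.sum_add_distrib]
  ring

theorem TT_zero (h : Au p) (a b : Fin 3) (n S : ℕ) : TT h a b n S 0 = 0 := by
  unfold TT
  simp [hs_zero']

theorem TT_sum (h : Au p) (a b : Fin 3) (n S : ℕ) {ι : Type} (s : Finset ι) (f : ι → A p) :
    TT h a b n S (∑ i ∈ s, f i) = ∑ i ∈ s, TT h a b n S (f i) := by
  classical
  induction s using Finset.induction_on with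
  | empty => simp [TT_zero]
  | insert i s hi ih => rw [Finset.sum_insert hi, Finset.sum_insert hi, TT_add, ih]

/-- monomials without `X b` are fixed -/
theorem fix_mono (h : Au p) (b : Fin 3) (hh : ∀ i : Fin 3, i ≠ b → h (X i) = X i)
    (β : Fin 3 →₀ ℕ) (hβ : β b = 0) : h (monomial β 1) = monomial β 1 := by
  rw [monomial_one_eq, Finsupp.prod, map_prod]
  apply Finset.prod_congr rfl
  intro i hi
  rw [map_pow]
  by_cases hib : i = b
  · rw [hib, hβ]
    simp
  · rw [hh i hib]

theorem hs_mono (b : Fin 3) (s : ℕ) (β : Fin 3 →₀ ℕ) (c : ZMod p) (hβ : β b = 0) (k : ℕ) :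
    hs b s (monomial (β + Finsupp.single b k) c : A p) =
      if s ≤ k then (Nat.choose k s : A p) * C c * monomial β 1 * X b ^ (k - s) else 0 := by
  classical
  ext α
  rw [hs_coeff, coeff_monomial]
  split_ifs with h1 h2 h2
  · have h3 : α = β + Finsupp.single b (k - s) := by
      ext i
      have := DFunLike.congr_fun h1 i
      simp only [Finsupp.add_apply, Finsupp.single_apply] at this ⊢
      split_ifs at this ⊢ <;> omega
    have h4 : α b + s = k := by
      rw [h3]
      simp [hβ]
      omega
    rw [h4, h3]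
    have : (Nat.choose k s : A p) * C c * monomial β 1 * X b ^ (k - s) =
        monomial (β + Finsupp.single b (k - s)) ((Nat.choose k s : ZMod p) * c) := by
      rw [X_pow_eq, mul_assoc, monomial_mul_monomial, mul_one, ← map_natCast (C (σ := Fin 3) (R := ZMod p)),
        ← map_mul, ← monomial_zero_eq_C_apply, monomial_mul_monomial, zero_add, mul_one]
    rw [this, coeff_monomial_same]
  · exfalso
    have := DFunLike.congr_fun h1 b
    simp only [Finsupp.add_apply, Finsupp.single_apply, if_true, hβ] at this
    omega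
  · rw [mul_zero]
    have : (Nat.choose k s : A p) * C c * monomial β 1 * X b ^ (k - s) =
        monomial (β + Finsupp.single b (k - s)) ((Nat.choose k s : ZMod p) * c) := by
      rw [X_pow_eq, mul_assoc, monomial_mul_monomial, mul_one, ← map_natCast (C (σ := Fin 3) (R := ZMod p)),
        ← map_mul, ← monomial_zero_eq_C_apply, monomial_mul_monomial, zero_add, mul_one]
    rw [this, coeff_monomial_ne]
    rintro rfl
    apply h1
    rw [add_assoc, ← Finsupp.single_add, Nat.sub_add_cancel h2]
  · simp

theorem TT_mono (h : Au p) (a b : Fin 3) (n S : ℕ) (hh : ∀ i : Fin 3, i ≠ b → h (X i) = X i)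
    (hb : h (X b) = X b + X a ^ n) (β : Fin 3 →₀ ℕ) (c : ZMod p) (hβ : β b = 0) (k : ℕ) :
    (X a ^ (n * S) : A p) ∣ TT h a b n S (monomial (β + Finsupp.single b k) c) := by
  have e1 : (monomial (β + Finsupp.single b k) c : A p) = C c * monomial β 1 * X b ^ k := by
    rw [X_pow_eq, mul_assoc, monomial_mul_monomial, mul_one, ← monomial_zero_eq_C_apply,
      monomial_mul_monomial, zero_add, mul_one]
  have e2 : h (monomial (β + Finsupp.single b k) c) =
      ∑ s ∈ Finset.range (k + 1), X a ^ (n * s) * hs b s (monomial (β + Finsupp.single b k) c) := by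
    have hC : h (C c) = C c := by
      have h1 := h.commutes c
      rwa [MvPowerSeries.algebraMap_apply, Algebra.algebraMap_self, RingHom.id_apply] at h1
    rw [e1, map_mul, map_mul, fix_mono h b hh β hβ, map_pow, hb, hC, ← e1, add_comm (X b), add_pow,
      Finset.mul_sum]
    apply Finset.sum_congr rfl
    intro s hs'
    rw [Finset.mem_range] at hs'
    rw [hs_mono b s β c hβ k, if_pos (by omega), ← pow_mul]
    ring
  have e3 : ∑ s ∈ Finset.range (k + 1), X a ^ (n * s) * hs b s (monomial (β + Finsupp.single b k) c) =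
      ∑ s ∈ Finset.range (S + (k + 1)),
        X a ^ (n * s) * hs b s (monomial (β + Finsupp.single b k) c : A p) := by
    apply Finset.sum_subset
    · intro s hs'
      rw [Finset.mem_range] at hs' ⊢
      omega
    · intro s _ hs'
      rw [Finset.mem_range] at hs'
      rw [hs_mono b s β c hβ k, if_neg (by omega), mul_zero]
  unfold TT
  rw [e2, e3, Finset.sum_range_add, add_sub_cancel_left]
  apply Finset.dvd_sum
  intro s _
  rw [mul_add, pow_add, mul_assoc]
  exact Dvd.intro _ rfl

theorem t_HT (p : ℕ) [Fact p.Prime] : S_HT p := by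
  classical
  intro h a b n hab hn hG hT f r
  obtain ⟨hb, hh⟩ := hT
  have key : (X a ^ (n * (r + 1)) : A p) ∣ TT h a b n (r + 1) f := by
    rw [X_pow_dvd_iff]
    intro α hα
    -- approximation
    let N := α.degree + 1
    let B : Finset (Fin 3 →₀ ℕ) := Finset.Iic (Finsupp.equivFunOnFinite.symm (fun _ => N))
    let fN : A p := ∑ β ∈ B, monomial β (coeff β f)
    have hq : f - fN ∈ M p N := by
      intro β hβ
      have hβB : β ∈ B := by
        rw [Finset.mem_Iic]
        intro i
        have h1 : β i ≤ β.degree := Finsupp.le_degree i β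
        show β i ≤ N
        omega
      rw [map_sub, map_sum, Finset.sum_eq_single β]
      · rw [coeff_monomial_same, sub_self]
      · intro γ _ hγ
        exact coeff_monomial_ne (Ne.symm hγ) _
      · intro hcon
        exact absurd hβB hcon
    have hTq : TT h a b n (r + 1) (f - fN) ∈ M p N := by
      unfold TT
      apply Ideal.sub_mem
      · exact Ga_pres hG hq
      · apply Ideal.sum_mem
        intro s _
        have h1 : (X a ^ (n * s) * hs b s (f - fN) : A p) ∈ M p (n * s + (N - s)) :=
          M_mul (Xpow_mem a _) (hs_mem hq b s)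
        apply M_anti _ h1
        have h2 : 2 * s ≤ n * s := Nat.mul_le_mul_right s hn
        omega
    have hTN : (X a ^ (n * (r + 1)) : A p) ∣ TT h a b n (r + 1) fN := by
      rw [TT_sum]
      apply Finset.dvd_sum
      intro β _
      have hβ : β = β.erase b + Finsupp.single b (β b) := (Finsupp.erase_add_single b β).symm
      rw [hβ]
      exact TT_mono h a b n (r + 1) hh hb _ _ (by simp) _
    have hf : f = fN + (f - fN) := by ring
    rw [hf, TT_add, map_add, (X_pow_dvd_iff.1 hTN) α hα, hTq α (Nat.lt_succ_self _), add_zero]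
  obtain ⟨ρ, hρ⟩ := key
  refine ⟨ρ, ?_⟩
  rw [← hρ]
  unfold TT
  ring

end Pool.Agent.N897.HJ
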